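import Mathlib
import Pool.Agent.H48.BB

set_option autoImplicit false

namespace Pool.Agent.Results.MP_f7162b_al.Counterexample

/-- Torsion-free abelian groups. -/
def TorsionFree (A : Type) [AddCommGroup A] : Prop := ∀ (n : ℤ) (x : A), n ≠ 0 → n • x = 0 → x = 0

/-- Every surjective endomorphism is an automorphism. -/
def Hopfian (A : Type) [AddCommGroup A] : Prop :=
  ∀ φ : A →+ A, Function.Surjective φ → Function.Bijective φ

/-- Every endomorphism with finite cokernel has trivial kernel. -/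
def CoFinitelyInjective (A : Type) [AddCommGroup A] : Prop :=
  ∀ φ : A →+ A, Finite (A ⧸ φ.range) → φ.ker = ⊥

open Pool.Agent.H48.BB Polynomial

/-- The backward shift. -/
noncomputable def t : Module.End ℚ ℚ[X] where
  toFun p := divX p + C (2 * p.coeff 1)
  map_add' p q := by simp only [divX_add, coeff_add, mul_add, map_add]; ring
  map_smul' r p := by
    ext n
    simp only [coeff_add, coeff_divX, coeff_smul, coeff_C, smul_eq_mul, RingHom.id_apply]
    split_ifs <;> ring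

theorem t0 (p : ℚ[X]) : (t p).coeff 0 = 3 * p.coeff 1 := by
  simp [t, coeff_divX]
  ring

theorem t1 (p : ℚ[X]) (n : ℕ) : (t p).coeff (n + 1) = p.coeff (n + 2) := by
  simp [t, coeff_divX]

/-- A right inverse of the shift. -/
noncomputable def s (p : ℚ[X]) : ℚ[X] := X * (p - C (2 / 3 * p.coeff 0))

theorem s0 (p : ℚ[X]) : (s p).coeff 0 = 0 := by simp [s]

theorem s1 (p : ℚ[X]) : (s p).coeff 1 = p.coeff 0 / 3 := by
  rw [s, coeff_X_mul, coeff_sub, coeff_C_zero]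
  ring

theorem s2 (p : ℚ[X]) (n : ℕ) : (s p).coeff (n + 2) = p.coeff (n + 1) := by
  rw [s, coeff_X_mul, coeff_sub, coeff_C_succ, sub_zero]

theorem t_s (p : ℚ[X]) : t (s p) = p := by
  ext (_ | n)
  · rw [t0, s1]; ring
  · rw [t1, s2]

theorem s_t (p : ℚ[X]) : s (t p) = p - C (p.coeff 0) := by
  ext (_ | _ | n)
  · simp [s0]
  · simp [s1, t0]
  · simp [s2, t1]

theorem s_sub (p q : ℚ[X]) : s (p - q) = s p - s q := by
  simp only [s, coeff_sub, mul_sub, map_sub]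
  ring

theorem t_C (c : ℚ) : t (C c) = 0 := by
  ext (_ | n) <;> simp [t0, t1]

/-- Integral polynomials. -/
noncomputable abbrev L : AddSubgroup ℚ[X] := lat (lcoeff ℚ)

theorem C_mem (z : ℤ) : C (z : ℚ) ∈ L := by
  rintro (_ | n)
  · exact ⟨z, by simp⟩
  · exact ⟨0, by rw [lcoeff_apply, coeff_C_succ, Int.cast_zero]⟩

theorem s_mem {p : ℚ[X]} {m : ℚ} (h : m • p ∈ L) {z : ℤ} (hz : m * p.coeff 0 = 3 * z) :
    m • s p ∈ L := by
  rintro (_ | _ | n)
  · exact ⟨0, by simp [s0]⟩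
  · exact ⟨z, by simp [s1, ← mul_div_assoc, hz]⟩
  · simpa [s2] using h (n + 1)

theorem s_I {q : ℕ} (hq : Nat.Coprime 3 q) {p : ℚ[X]} (h : p ∈ I L q) : s p ∈ I L q := by
  obtain ⟨m, h1, h2⟩ := h
  obtain ⟨z, hz⟩ := h2 0
  refine ⟨3 * m, Nat.Coprime.mul_left hq h1, s_mem ?_ (z := z) ?_⟩
  · rw [Nat.cast_mul, mul_smul, Nat.cast_smul_eq_nsmul]
    exact L.nsmul_mem h2 3
  · rw [← hz]
    simp [mul_assoc]

theorem hT : ∀ _ : Unit, ∀ v ∈ L, t v ∈ L := by
  rintro - v hv (_ | n)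
  · obtain ⟨z, hz⟩ := hv 1
    exact ⟨3 * z, by simpa [t0] using hz⟩
  · simpa [t1] using hv (n + 2)

theorem sp (v : ℚ[X]) : ∃ N : ℕ, N ≠ 0 ∧ (N : ℚ) • v ∈ L := by
  refine ⟨∏ n ∈ v.support, (v.coeff n).den, Finset.prod_ne_zero_iff.mpr fun _ _ => Rat.den_ne_zero _,
    fun n => ?_⟩
  by_cases h : n ∈ v.support
  · obtain ⟨c, hc⟩ := Finset.dvd_prod_of_mem (fun n => (v.coeff n).den) h
    exact ⟨(v.coeff n).num * c, by
      rw [hc, lcoeff_apply, coeff_smul, smul_eq_mul, Int.cast_mul, ← Rat.mul_den_eq_num]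
      push_cast
      ring⟩
  · exact ⟨0, by simp [notMem_support_iff.mp h]⟩

/-- The group. -/
noncomputable abbrev A := G L fun _ : Unit => t

theorem frac {q : ℕ} (hq : q.Prime) (r : ℚ) :
    ∃ (a : ℤ) (k : ℕ), C (((q ^ k : ℕ) : ℚ)⁻¹ * a - r) ∈ I L q := by
  obtain ⟨k, m, h1, h2⟩ := Nat.exists_eq_pow_mul_and_not_dvd r.den_ne_zero q hq.ne_one
  have h3 := ((hq.coprime_iff_not_dvd).mpr h1).symm
  obtain ⟨x, y, h4⟩ := Nat.isCoprime_iff_coprime.mpr (h3.pow_right k)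
  refine ⟨r.num * x, k, m, h3, ?_⟩
  have h5 : (x : ℚ) * m + y * (q ^ k : ℕ) = 1 := by exact_mod_cast h4
  have h6 : r * ((q ^ k : ℕ) * m) = r.num := by rw [← Rat.mul_den_eq_num, h2, Nat.cast_mul]
  have h7 : ((q ^ k : ℕ) : ℚ) ≠ 0 := by exact_mod_cast pow_ne_zero _ hq.ne_zero
  have : (m : ℚ) * (((q ^ k : ℕ) : ℚ)⁻¹ * (r.num * x : ℤ) - r) = (-(r.num * y) : ℤ) := by
    rw [Int.cast_neg, Int.cast_mul, Int.cast_mul]
    field_simp
    linear_combination r.num * h5 - h6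
  rw [smul_C, smul_eq_mul, this]
  exact C_mem _

theorem res {p : ℚ[X]} (h : p ∈ I L 3) : ∃ e : Fin 3, s (p - C ((e : ℤ) : ℚ)) ∈ I L 3 := by
  obtain ⟨m, h1, h2⟩ := h
  obtain ⟨z, hz⟩ := h2 0
  obtain ⟨e, w, he⟩ : ∃ (e : Fin 3) (w : ℤ), z - m * e = 3 * w := by
    obtain ⟨x, y, h4⟩ := Nat.isCoprime_iff_coprime.mpr h1
    refine ⟨⟨(z * x % 3).toNat, by omega⟩, z * y + m * (z * x / 3), ?_⟩
    have h5 := Int.emod_add_mul_ediv (z * x) 3
    rw [Int.toNat_of_nonneg (by omega)]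
    push_cast at h4
    linear_combination -z * h4 - m * h5
  refine ⟨e, m, h1, s_mem ?_ (z := w) ?_⟩
  · rw [smul_sub, Nat.cast_smul_eq_nsmul ℚ m (C _)]
    exact sub_mem h2 (L.nsmul_mem (C_mem _) m)
  · have h5 : (z : ℚ) - m * (e : ℤ) = 3 * w := by exact_mod_cast he
    rw [coeff_sub, coeff_C_zero, mul_sub, ← h5, ← hz]
    simp

/-- The endomorphism with finite cokernel. -/
noncomputable def φ : A →+ A := ind t (fun _ => rfl) ⟨0, by simpa using hT ()⟩

theorem fin : Finite (A ⧸ φ.range) := by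
  refine Finite.of_surjective (fun e : Fin 3 × Fin 3 => QuotientAddGroup.mk
    (⟨(C ((e.1 : ℤ) : ℚ), C ((e.2 : ℤ) : ℚ)), G_of hT (C_mem _) (C_mem _)⟩ : A)) fun v => ?_
  obtain ⟨v, rfl⟩ := QuotientAddGroup.mk_surjective v
  obtain ⟨e, he⟩ := res v.2.2.1
  obtain ⟨e', he'⟩ := res v.2.2.2
  refine ⟨(e, e'), Eq.symm (QuotientAddGroup.eq_iff_sub_mem.mpr ?_)⟩
  set w : A := v - _
  obtain ⟨a, k, h1⟩ := frac (pr_prime (.inl () : Unit ⊕ Fin 3)) (w.1.1.coeff 0)
  set c := ((pr (.inl () : Unit ⊕ Fin 3) ^ k : ℕ) : ℚ)⁻¹ * a with hc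
  have h2 : ∀ p, (pr (.inl () : Unit ⊕ Fin 3)).Coprime p → C c ∈ I L p := fun p hp => by
    rw [hc, ← smul_eq_mul, ← smul_C]
    exact I_div (pow_ne_zero _ (pr_prime _).ne_zero) (hp.pow_left k) (I_of _ (C_mem a))
  refine ⟨⟨(s w.1.1 + C c, s w.1.2 + C c), fun i => ?_, add_mem he (h2 _ (pr_three _)),
    add_mem he' (h2 _ (pr_three _))⟩, Subtype.ext (Prod.ext ?_ ?_)⟩
  · have h3 := s_I (pr_three i).symm (w.2.1 i)
    match i with
    | .inl () =>
      have := add_mem h3 h1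
      change s (w.1.2 - t w.1.1) + _ ∈ _ at this
      change s w.1.2 + C c - t (s w.1.1 + C c) ∈ _
      rw [map_add, t_s, t_C, add_zero]
      rw [s_sub, s_t, map_sub] at this
      rwa [show s w.1.2 + C c - w.1.1 = s w.1.2 - (w.1.1 - C (w.1.1.coeff 0)) +
        (C c - C (w.1.1.coeff 0)) by ring]
    | .inr 0 => exact add_mem h3 (h2 _ (pr_cop (by simp)))
    | .inr 1 => exact add_mem h3 (h2 _ (pr_cop (by simp)))
    | .inr 2 =>
      change s w.1.2 + C c - (s w.1.1 + C c) ∈ _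
      rwa [add_sub_add_right_eq_sub, ← s_sub]
  · change t (s w.1.1 + C c) = _
    rw [map_add, t_s, t_C, add_zero]
  · change t (s w.1.2 + C c) = _
    rw [map_add, t_s, t_C, add_zero]

theorem kill {α : Module.End ℚ ℚ[X]} (h : α * t = t * α) (n : ℕ) :
    ∀ p : ℚ[X], (∀ k, n ≤ k → p.coeff k = 0) → p ≠ 0 → α p = 0 → α 1 = 0 := by
  induction n with
  | zero => exact fun p h1 h2 => absurd (Polynomial.ext fun k => h1 k k.zero_le) h2
  | succ n ih =>
    intro p h1 h2 h3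
    by_cases e : t p = 0
    · have h4 := s_t p
      rw [e, show s 0 = 0 by simp [s], eq_comm, sub_eq_zero] at h4
      rw [h4, ← mul_one (C _), ← smul_eq_C_mul, map_smul, smul_eq_zero] at h3
      exact h3.resolve_left fun h0 => h2 (by rw [h4, h0, map_zero])
    · refine ih (t p) ?_ e ((LinearMap.congr_fun h p).trans (by simp [h3]))
      rintro (_ | k) hk
      · rw [t0, h1 1 (by omega), mul_zero]
      · rw [t1, h1 _ (by omega)]

theorem hopf : Hopfian A := by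
  intro ψ hψ
  refine ⟨(injective_iff_map_eq_zero ψ).mpr fun x hx => by_contra fun hc => ?_, hψ⟩
  obtain ⟨α, h1, h2⟩ := ext_ex hT sp (lat_red fun v hv => Polynomial.ext hv) ψ
  replace h2 : ∀ x : A, (ψ x).1 = (α x.1.1, α x.1.2) := h2
  have h3 : α 1 = 0 := by
    have e := h2 x
    rw [hx] at e
    by_cases h : x.1.1 = 0
    · exact kill (h1 ()) (x.1.2.natDegree + 1) x.1.2 (fun k => coeff_eq_zero_of_natDegree_lt)
        (fun h' => hc (Subtype.ext (Prod.ext h h'))) (congrArg Prod.snd e).symm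
    · exact kill (h1 ()) (x.1.1.natDegree + 1) x.1.1 (fun k => coeff_eq_zero_of_natDegree_lt) h
        (congrArg Prod.fst e).symm
  obtain ⟨y, hy⟩ := hψ ⟨(C ((1 : ℤ) : ℚ), 0), G_of hT (C_mem 1) (zero_mem _)⟩
  have h4 : α y.1.1 = C ((1 : ℤ) : ℚ) := (congrArg Prod.fst (h2 y)).symm.trans (by rw [hy])
  obtain ⟨m, h5, h6⟩ := y.2.2.1
  obtain ⟨z, hz⟩ := h6 0
  set u := (m : ℚ) • y.1.1 - C (z : ℚ) with hu
  have h7 : s u ∈ L := by
    simpa using s_mem (m := 1) (p := u) (by rw [one_smul]; exact sub_mem h6 (C_mem z)) (z := 0)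
      (by rw [hu, coeff_sub, coeff_C_zero, ← hz]; simp)
  obtain ⟨m', h8, h9⟩ := (ψ ⟨(s u, 0), G_of hT h7 (zero_mem _)⟩).2.2.1
  rw [h2] at h9
  obtain ⟨z', hz'⟩ := h9 1
  have h10 := congrArg (coeff · 0) (LinearMap.congr_fun (h1 ()) (s u))
  simp only [Module.End.mul_apply, t_s, t0] at h10
  rw [show α u = (m : ℚ) • C ((1 : ℤ) : ℚ) by
    rw [hu, map_sub, map_smul, h4, ← mul_one (C (z : ℚ)), ← smul_eq_C_mul, map_smul, h3,
      smul_zero, sub_zero]] at h10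
  have h11 : (m' : ℚ) * m = 3 * z' := by
    rw [← hz']
    simp only [coeff_smul, coeff_C_zero, Int.cast_one, smul_eq_mul, mul_one] at h10
    simp only [h10, lcoeff_apply, coeff_smul, smul_eq_mul]
    ring
  have h12 : (3 : ℤ) ∣ (m' * m : ℕ) := ⟨z', by exact_mod_cast h11⟩
  have := (Nat.Coprime.mul_left h8 h5).symm.eq_one_of_dvd (by exact_mod_cast h12)
  omega

theorem result : ∃ (A : Type) (_ : AddCommGroup A),
    TorsionFree A ∧ Hopfian A ∧ ¬ CoFinitelyInjective A := by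
  refine ⟨A, inferInstance, fun n x hn hx => Subtype.ext ?_, hopf, fun h => ?_⟩
  · have : (n : ℚ) • x.1 = 0 := by
      rw [Int.cast_smul_eq_zsmul]
      exact congrArg Subtype.val hx
    exact (smul_eq_zero.mp this).resolve_left (by exact_mod_cast hn)
  · have : (⟨(C ((1 : ℤ) : ℚ), 0), G_of hT (C_mem 1) (zero_mem _)⟩ : A) ∈ φ.ker :=
      Subtype.ext (Prod.ext (t_C _) (map_zero t))
    rw [h φ fin, AddSubgroup.mem_bot] at this
    simpa using congrArg (fun x : A => x.1.1) this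

end Pool.Agent.Results.MP_f7162b_al.Counterexample
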